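import Mathlib
import Pool.Agent.H96Z.MB.Defs
import Pool.Agent.H96Z.MB.Final

set_option autoImplicit false

namespace Pool.Agent.Results.MP_913206_gt.AnalyticMengerHurewicz

open Pool.Agent.H96Z.MB

/-- Every analytic topological group (separable metrizable, a continuous image of the Baire space)
which satisfies `S_fin(O_nbd, O)` (Menger-bounded) satisfies `S_1(Omega_nbd, Gamma)`
(Hurewicz-bounded). -/
theorem result (G : Type*) [Group G] [TopologicalSpace G] [IsTopologicalGroup G]
    [TopologicalSpace.MetrizableSpace G] [TopologicalSpace.SeparableSpace G]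
    (hG : ∃ f : (ℕ → ℕ) → G, Continuous f ∧ Function.Surjective f)
    (hM : SFin (ONbd G) (OpenCovers G)) :
    SOne (OmegaNbd G) (GammaCovers G) := by
  obtain ⟨f, hf, hs⟩ := hG
  exact main f hf hs hM

end Pool.Agent.Results.MP_913206_gt.AnalyticMengerHurewicz
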